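import Pool.Agent.Helper12.SO.PhaseOneAux
import Pool.Agent.Helper10.SO.GenericNear
import Pool.Agent.Helper37.SO.RowStep

set_option autoImplicit false

/-! SO-7: phase one. -/

namespace Pool.Agent.Helper28.SO

/-- SO-7 (phase 1). (The hypothesis `1 ≤ d` is needed for the existence of `τ`.) -/
theorem phase_one {n d : ℕ} (hd : 1 ≤ d) (v : Fin n → Fin d → ℕ) (N : Fin n → Finset (Fin d))
    (hN : IsLadder v N) :
    ∃ (w : Fin n → Fin d → ℝ) (τ : Fin n → Fin n → Fin d), Generic w ∧
      (∀ k l, l < k → N l ⊆ N k → τ k l ∈ N l ∧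
        ∀ c ∈ N l, c ≠ τ k l → w l (τ k l) - w k (τ k l) < w l c - w k c) ∧
      (∀ k, ∀ c ∈ N k,
        (Finset.univ.filter (fun l => l < k ∧ N l ⊆ N k ∧ τ k l = c)).card = v k c) := by
  refine phase_one_aux v N hN ?_ fun w hw l C J hl I hI a htot hall M =>
    row_step hd w hw l C J hl I hI a htot hall M
  obtain ⟨α', -, h⟩ := exists_generic_near (ι := Fin 0) (κ := Fin n × Fin d) (fun _ => (0 : ℝ))
    linearIndependent_empty_type (fun _ => 0) 1 one_pos
  refine ⟨fun i c => α' (i, c), ?_⟩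
  exact h.comp Sum.inr Sum.inr_injective

end Pool.Agent.Helper28.SO
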