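import Pool.Agent.Helper28.SO.Defs

set_option autoImplicit false

/-! SO-7: the induction of phase one, from the step. -/

namespace Pool.Agent.Helper28.SO

theorem phase_one_aux {n d : ℕ} (v : Fin n → Fin d → ℕ) (N : Fin n → Finset (Fin d))
    (hN : IsLadder v N) (h0 : ∃ w : Fin n → Fin d → ℝ, Generic w)
    (hstep : ∀ (w : Fin n → Fin d → ℝ) (_ : Generic w) (l : Fin n)
      (C : Finset (Fin d)) (J : Finset (Fin n)) (_ : l ∉ J) (I : Fin n → Finset (Fin d))
      (_ : ∀ j ∈ J, I j ⊆ C) (a : Fin d → ℕ) (_ : ∑ c ∈ C, a c = J.card)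
      (_ : ∀ D ⊆ C, (J.filter (fun j => I j ⊆ D)).card ≤ ∑ c ∈ D, a c) (M : ℝ),
      ∃ w' : Fin n → Fin d → ℝ, (∀ i c, (i ≠ l ∨ c ∉ C) → w' i c = w i c) ∧ Generic w' ∧
        (∀ c ∈ C, M ≤ w' l c) ∧
        ∃ φ : Fin n → Fin d,
          (∀ j ∈ J, φ j ∈ I j ∧ ∀ c ∈ I j, c ≠ φ j → w' j (φ j) - w' l (φ j) < w' j c - w' l c) ∧
          ∀ c ∈ C, (J.filter (fun j => φ j = c)).card = a c) :
    ∃ (w : Fin n → Fin d → ℝ) (τ : Fin n → Fin n → Fin d), Generic w ∧
      (∀ k l, l < k → N l ⊆ N k → τ k l ∈ N l ∧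
        ∀ c ∈ N l, c ≠ τ k l → w l (τ k l) - w k (τ k l) < w l c - w k c) ∧
      (∀ k, ∀ c ∈ N k,
        (Finset.univ.filter (fun l => l < k ∧ N l ⊆ N k ∧ τ k l = c)).card = v k c) := by
  classical
  have key : ∀ m : ℕ, m ≤ n → ∃ (w : Fin n → Fin d → ℝ) (τ : Fin n → Fin n → Fin d), Generic w ∧
      (∀ k l : Fin n, (k : ℕ) < m → l < k → N l ⊆ N k → τ k l ∈ N l ∧
        ∀ c ∈ N l, c ≠ τ k l → w l (τ k l) - w k (τ k l) < w l c - w k c) ∧
      (∀ k : Fin n, (k : ℕ) < m → ∀ c ∈ N k,
        (Finset.univ.filter (fun l => l < k ∧ N l ⊆ N k ∧ τ k l = c)).card = v k c) := by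
    intro m
    induction m with
    | zero =>
      intro _
      obtain ⟨w, hw⟩ := h0
      by_cases hd : Nonempty (Fin n → Fin n → Fin d)
      · obtain ⟨τ⟩ := hd
        exact ⟨w, τ, hw, fun k l hk => absurd hk (Nat.not_lt_zero _),
          fun k hk => absurd hk (Nat.not_lt_zero _)⟩
      · exfalso
        apply hd
        by_cases hn : Nonempty (Fin n)
        · -- then `d = 0`, which contradicts nothing: use the step
          obtain ⟨l⟩ := hn
          obtain ⟨w', -, -, -, φ, -⟩ := hstep w hw l ∅ ∅ (by simp) (fun _ => ∅) (by simp)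
            (fun _ => 0) (by simp) (by simp) 0
          exact ⟨fun _ => φ⟩
        · rw [not_nonempty_iff] at hn
          exact ⟨fun i => (hn.false i).elim⟩
    | succ m ih =>
      intro hm
      obtain ⟨w, τ, hw, h1, h2⟩ := ih (by omega)
      have hmn : m < n := hm
      set k₀ : Fin n := ⟨m, hmn⟩ with hk₀
      set J : Finset (Fin n) := Finset.univ.filter (fun l => l < k₀ ∧ N l ⊆ N k₀) with hJ
      have hJmem : ∀ j, j ∈ J ↔ j < k₀ ∧ N j ⊆ N k₀ := by
        intro j
        rw [hJ, Finset.mem_filter]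
        simp
      have hl : k₀ ∉ J := by
        rw [hJmem]
        exact fun h => lt_irrefl _ h.1
      have hI : ∀ j ∈ J, N j ⊆ N k₀ := fun j hj => ((hJmem j).1 hj).2
      have htot : ∑ c ∈ N k₀, v k₀ c = J.card := hN.2 k₀
      have hall : ∀ D ⊆ N k₀, (J.filter (fun j => N j ⊆ D)).card ≤ ∑ c ∈ D, v k₀ c := by
        intro D _
        refine le_trans (Finset.card_le_card ?_) (hN.1 k₀ D)
        intro j hj
        rw [Finset.mem_filter, hJmem] at hj
        rw [Finset.mem_filter]
        exact ⟨Finset.mem_univ _, hj.1.1, hj.2⟩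
      obtain ⟨w', hw', hgen, -, φ, hφ1, hφ2⟩ := hstep w hw k₀ (N k₀) J hl N hI (v k₀) htot hall 0
      have hne : ∀ j : Fin n, j ≠ k₀ → w' j = w j := by
        intro j hj
        funext c
        exact hw' j c (Or.inl hj)
      refine ⟨w', Function.update τ k₀ φ, hgen, ?_, ?_⟩
      · intro k l hk hlk hsub
        by_cases hkk : k = k₀
        · subst hkk
          rw [Function.update_self]
          exact hφ1 l ((hJmem l).2 ⟨hlk, hsub⟩)
        · rw [Function.update_of_ne hkk]
          have hkm : (k : ℕ) < m := by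
            have : (k : ℕ) ≠ m := fun h => hkk (Fin.ext h)
            omega
          have hlne : l ≠ k₀ := by
            intro h
            have h3 : (l : ℕ) < (k : ℕ) := hlk
            rw [h] at h3
            have h4 : m < (k : ℕ) := h3
            omega
          rw [hne l hlne, hne k hkk]
          exact h1 k l hkm hlk hsub
      · intro k hk c hc
        by_cases hkk : k = k₀
        · subst hkk
          rw [Function.update_self, ← hφ2 c hc]
          congr 1
          ext j
          rw [Finset.mem_filter, Finset.mem_filter, hJmem]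
          constructor
          · rintro ⟨-, h3, h4, h5⟩
            exact ⟨⟨h3, h4⟩, h5⟩
          · rintro ⟨⟨h3, h4⟩, h5⟩
            exact ⟨Finset.mem_univ _, h3, h4, h5⟩
        · rw [Function.update_of_ne hkk]
          have hkm : (k : ℕ) < m := by
            have : (k : ℕ) ≠ m := fun h => hkk (Fin.ext h)
            omega
          exact h2 k hkm c hc
  obtain ⟨w, τ, hw, h1, h2⟩ := key n le_rfl
  exact ⟨w, τ, hw, fun k l hlk => h1 k l k.2 hlk, fun k => h2 k k.2⟩

end Pool.Agent.Helper28.SO
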